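import Mathlib

set_option autoImplicit false

namespace Pool.Agent.QuarticVectors

/-- strict convexity of the quartic form -/
theorem strict_triangle {n : ℤ} {K L M x y u v z w : ℤ} (hn : 0 < n) (hL : 0 < L) (hM : 0 < M)
    (h1 : x ^ 4 + y ^ 4 = n) (h2 : u ^ 4 + v ^ 4 = n) (h3 : z ^ 4 + w ^ 4 = n)
    (hne : u ≠ z ∨ v ≠ w) (hx : K * x = L * u + M * z) (hy : K * y = L * v + M * w) :
    K < L + M := by
  by_contra hcon
  have hK : L + M ≤ K := not_lt.1 hcon
  have key : ∀ a b : ℤ, (L * a + M * b) ^ 4 ≤ (L + M) ^ 3 * (L * a ^ 4 + M * b ^ 4) := by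
    intro a b
    have e : (L + M) ^ 3 * (L * a ^ 4 + M * b ^ 4) - (L * a + M * b) ^ 4 =
        L * M * (a - b) ^ 2 * ((L + M) ^ 2 * (a + b) ^ 2 +
          ((L + M) * (L * a ^ 2 + M * b ^ 2) + (L * a + M * b) ^ 2)) := by ring
    have : 0 ≤ L * M * (a - b) ^ 2 * ((L + M) ^ 2 * (a + b) ^ 2 +
          ((L + M) * (L * a ^ 2 + M * b ^ 2) + (L * a + M * b) ^ 2)) := by positivity
    linarith
  have keys : ∀ a b : ℤ, a ≠ b →
      (L * a + M * b) ^ 4 < (L + M) ^ 3 * (L * a ^ 4 + M * b ^ 4) := by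
    intro a b hab
    have e : (L + M) ^ 3 * (L * a ^ 4 + M * b ^ 4) - (L * a + M * b) ^ 4 =
        L * M * (a - b) ^ 2 * ((L + M) ^ 2 * (a + b) ^ 2 +
          ((L + M) * (L * a ^ 2 + M * b ^ 2) + (L * a + M * b) ^ 2)) := by ring
    have h0 : 0 < (a - b) ^ 2 := by
      have : a - b ≠ 0 := sub_ne_zero.2 hab
      positivity
    have h5 : 0 < L * a ^ 2 + M * b ^ 2 := by
      rcases eq_or_ne a 0 with rfl | ha
      · have hb : b ≠ 0 := fun h => hab h.symm
        positivity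
      · positivity
    have : 0 < L * M * (a - b) ^ 2 * ((L + M) ^ 2 * (a + b) ^ 2 +
          ((L + M) * (L * a ^ 2 + M * b ^ 2) + (L * a + M * b) ^ 2)) := by positivity
    linarith
  have h4 : (L + M) ^ 4 * n ≤ K ^ 4 * n := by
    have : (L + M) ^ 4 ≤ K ^ 4 := pow_le_pow_left₀ (by positivity) hK 4
    exact mul_le_mul_of_nonneg_right this hn.le
  have h5 : K ^ 4 * n = (L * u + M * z) ^ 4 + (L * v + M * w) ^ 4 := by
    rw [← h1, ← hx, ← hy]
    ring
  have h6 : (L + M) ^ 4 * n = (L + M) ^ 3 * (L * u ^ 4 + M * z ^ 4) +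
      (L + M) ^ 3 * (L * v ^ 4 + M * w ^ 4) := by
    have : (L + M) ^ 4 * n = (L + M) ^ 3 * (L * (u ^ 4 + v ^ 4) + M * (z ^ 4 + w ^ 4)) := by
      rw [h2, h3]
      ring
    rw [this]
    ring
  rcases hne with hne | hne
  · have := keys u z hne
    have := key v w
    linarith
  · have := key u z
    have := keys v w hne
    linarith

theorem even_of_sixteen {x y : ℤ} (h : (16 : ℤ) ∣ x ^ 4 + y ^ 4) : 2 ∣ x ∧ 2 ∣ y := by
  have key : ∀ a b : ZMod 16, a ^ 4 + b ^ 4 = 0 → 8 * a = 0 ∧ 8 * b = 0 := by decide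
  have h1 : ((x ^ 4 + y ^ 4 : ℤ) : ZMod 16) = 0 :=
    (ZMod.intCast_zmod_eq_zero_iff_dvd _ 16).2 (by exact_mod_cast h)
  push_cast at h1
  obtain ⟨h2, h3⟩ := key _ _ h1
  have h4 : ((8 * x : ℤ) : ZMod 16) = 0 := by push_cast; exact h2
  have h5 : ((8 * y : ℤ) : ZMod 16) = 0 := by push_cast; exact h3
  have h6 := (ZMod.intCast_zmod_eq_zero_iff_dvd _ 16).1 h4
  have h7 := (ZMod.intCast_zmod_eq_zero_iff_dvd _ 16).1 h5
  push_cast at h6 h7
  constructor <;> omega

theorem three_dvd {x y : ℤ} (h : (3 : ℤ) ∣ x ^ 4 + y ^ 4) : 3 ∣ x ∧ 3 ∣ y := by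
  have h1 : (x ^ 4 + y ^ 4) % 3 = 0 := Int.emod_eq_zero_of_dvd h
  have h2 : ((x % 3) ^ 4 + (y % 3) ^ 4) % 3 = 0 := by
    rw [← h1]
    simp [Int.add_emod, pow_succ, Int.mul_emod]
  have hx0 := Int.emod_nonneg x (show (3 : ℤ) ≠ 0 by norm_num)
  have hx1 := Int.emod_lt_of_pos x (show (0 : ℤ) < 3 by norm_num)
  have hy0 := Int.emod_nonneg y (show (3 : ℤ) ≠ 0 by norm_num)
  have hy1 := Int.emod_lt_of_pos y (show (0 : ℤ) < 3 by norm_num)
  have hx2 : x % 3 = 0 ∨ x % 3 = 1 ∨ x % 3 = 2 := by omega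
  have hy2 : y % 3 = 0 ∨ y % 3 = 1 ∨ y % 3 = 2 := by omega
  rcases hx2 with hx2 | hx2 | hx2 <;> rcases hy2 with hy2 | hy2 | hy2 <;>
    rw [hx2, hy2] at h2 <;> norm_num at h2 <;> omega

theorem dvd_three_of {c0 c1 c2 a0 a1 a2 b0 b1 b2 : ℤ}
    (hx : c0 * a0 + c1 * a1 + c2 * a2 = 0) (hy : c0 * b0 + c1 * b1 + c2 * b2 = 0)
    (hd : a0 % 3 ≠ 0 ∨ b0 % 3 ≠ 0) : c1 % 3 = 0 → c2 % 3 = 0 → c0 % 3 = 0 := by
  intro h1 h2
  obtain ⟨e1, he1⟩ := Int.dvd_of_emod_eq_zero h1
  obtain ⟨e2, he2⟩ := Int.dvd_of_emod_eq_zero h2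
  subst he1
  subst he2
  have h3 : Prime (3 : ℤ) := Int.prime_three
  have k1 : (3 : ℤ) ∣ c0 * a0 := ⟨-(e1 * a1 + e2 * a2), by linear_combination hx⟩
  have k2 : (3 : ℤ) ∣ c0 * b0 := ⟨-(e1 * b1 + e2 * b2), by linear_combination hy⟩
  rcases h3.dvd_or_dvd k1 with h | h
  · exact Int.emod_eq_zero_of_dvd h
  · rcases h3.dvd_or_dvd k2 with h' | h'
    · exact Int.emod_eq_zero_of_dvd h'
    · have e1 := Int.emod_eq_zero_of_dvd h
      have e2 := Int.emod_eq_zero_of_dvd h'
      rcases hd with hd | hd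
      · exact absurd e1 hd
      · exact absurd e2 hd

/-- no relation with coefficients `1, ..., 4` between three vectors of equal quartic norm -/
theorem no_small_relation (n : ℕ) : ∀ (x y : Fin 3 → ℤ) (K : Fin 3 → ℤ), 0 < n →
    (∀ i, x i ^ 4 + y i ^ 4 = n) → (∀ i j, i ≠ j → ¬ (x i = x j ∧ y i = y j)) →
    (∀ i j, i ≠ j → ¬ (x i = - x j ∧ y i = - y j)) →
    (∀ i, 1 ≤ K i ∧ K i ≤ 4) → K 0 * x 0 + K 1 * x 1 + K 2 * x 2 = 0 →
    K 0 * y 0 + K 1 * y 1 + K 2 * y 2 = 0 → False := by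
  induction n using Nat.strong_induction_on with
  | _ n ih =>
    intro x y K hn hQ hne hne' hK hx hy
    by_cases h16 : (16 : ℤ) ∣ n
    · have hd : ∀ i, 2 ∣ x i ∧ 2 ∣ y i := fun i => even_of_sixteen (by rw [hQ i]; exact h16)
      choose u hu using fun i => (hd i).1
      choose v hv using fun i => (hd i).2
      have h16' : 16 ∣ n := by exact_mod_cast h16
      obtain ⟨m, hm⟩ := h16'
      have hm0 : 0 < m := by omega
      refine ih m (by omega) u v K hm0 ?_ ?_ ?_ hK ?_ ?_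
      · intro i
        have := hQ i
        rw [hu i, hv i, hm] at this
        push_cast at this
        linarith
      · rintro i j hij ⟨h1, h2⟩
        exact hne i j hij ⟨by rw [hu i, hu j, h1], by rw [hv i, hv j, h2]⟩
      · rintro i j hij ⟨h1, h2⟩
        exact hne' i j hij ⟨by rw [hu i, hu j, h1]; ring, by rw [hv i, hv j, h2]; ring⟩
      · rw [hu 0, hu 1, hu 2] at hx
        linarith
      · rw [hv 0, hv 1, hv 2] at hy
        linarith
    by_cases h3 : (3 : ℤ) ∣ n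
    · have hd : ∀ i, 3 ∣ x i ∧ 3 ∣ y i := fun i => three_dvd (by rw [hQ i]; exact h3)
      choose u hu using fun i => (hd i).1
      choose v hv using fun i => (hd i).2
      have h81 : (81 : ℤ) ∣ n := by
        rw [← hQ 0, hu 0, hv 0]
        exact ⟨u 0 ^ 4 + v 0 ^ 4, by ring⟩
      have h81' : 81 ∣ n := by exact_mod_cast h81
      obtain ⟨m, hm⟩ := h81'
      have hm0 : 0 < m := by omega
      refine ih m (by omega) u v K hm0 ?_ ?_ ?_ hK ?_ ?_
      · intro i
        have := hQ i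
        rw [hu i, hv i, hm] at this
        push_cast at this
        linarith
      · rintro i j hij ⟨h1, h2⟩
        exact hne i j hij ⟨by rw [hu i, hu j, h1], by rw [hv i, hv j, h2]⟩
      · rintro i j hij ⟨h1, h2⟩
        exact hne' i j hij ⟨by rw [hu i, hu j, h1]; ring, by rw [hv i, hv j, h2]; ring⟩
      · rw [hu 0, hu 1, hu 2] at hx
        linarith
      · rw [hv 0, hv 1, hv 2] at hy
        linarith
    -- triangle inequalities
    have hn' : (0 : ℤ) < n := by exact_mod_cast hn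
    have hneg : ∀ i, (-x i) ^ 4 + (-y i) ^ 4 = (n : ℤ) := fun i => by
      rw [← hQ i]
      ring
    have hor : ∀ i j, i ≠ j → (x i ≠ x j ∨ y i ≠ y j) := by
      intro i j hij
      by_contra h
      push Not at h
      exact hne i j hij h
    have t0 : K 0 < K 1 + K 2 :=
      strict_triangle hn' (by linarith [(hK 1).1]) (by linarith [(hK 2).1]) (hneg 0) (hQ 1) (hQ 2)
        (hor 1 2 (by decide)) (by linarith) (by linarith)
    have t1 : K 1 < K 0 + K 2 :=
      strict_triangle hn' (by linarith [(hK 0).1]) (by linarith [(hK 2).1]) (hneg 1) (hQ 0) (hQ 2)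
        (hor 0 2 (by decide)) (by linarith) (by linarith)
    have t2 : K 2 < K 0 + K 1 :=
      strict_triangle hn' (by linarith [(hK 0).1]) (by linarith [(hK 1).1]) (hneg 2) (hQ 0) (hQ 1)
        (hor 0 1 (by decide)) (by linarith) (by linarith)
    -- parities
    have hpar : ∀ i, (x i + y i) % 2 = (n : ℤ) % 2 := by
      intro i
      rw [← hQ i]
      have h1 : ∀ z : ℤ, z ^ 4 % 2 = z % 2 := by
        intro z
        rcases Int.emod_two_eq_zero_or_one z with h | h <;> simp [pow_succ, Int.mul_emod, h]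
      rw [Int.add_emod, Int.add_emod (x i ^ 4), h1, h1]
    have hodd : ∀ i, x i % 2 ≠ 0 ∨ y i % 2 ≠ 0 := by
      intro i
      by_contra h
      push Not at h
      obtain ⟨u, hu⟩ := Int.dvd_of_emod_eq_zero h.1
      obtain ⟨v, hv⟩ := Int.dvd_of_emod_eq_zero h.2
      apply h16
      rw [← hQ i, hu, hv]
      exact ⟨u ^ 4 + v ^ 4, by ring⟩
    have hthree : ∀ i, x i % 3 ≠ 0 ∨ y i % 3 ≠ 0 := by
      intro i
      by_contra h
      push Not at h
      obtain ⟨u, hu⟩ := Int.dvd_of_emod_eq_zero h.1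
      obtain ⟨v, hv⟩ := Int.dvd_of_emod_eq_zero h.2
      apply h3
      rw [← hQ i, hu, hv]
      exact ⟨27 * (u ^ 4 + v ^ 4), by ring⟩
    have p0 := hpar 0
    have p1 := hpar 1
    have p2 := hpar 2
    have o0 := hodd 0
    have o1 := hodd 1
    have o2 := hodd 2
    have d0 := hthree 0
    have d1 := hthree 1
    have d2 := hthree 2
    have k0 := hK 0
    have k1 := hK 1
    have k2 := hK 2
    clear hK hpar hodd hthree hor hneg hne hne' hQ ih h16 h3 hn'
    generalize x 0 = a0 at *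
    generalize x 1 = a1 at *
    generalize x 2 = a2 at *
    generalize y 0 = b0 at *
    generalize y 1 = b1 at *
    generalize y 2 = b2 at *
    generalize K 0 = c0 at *
    generalize K 1 = c1 at *
    generalize K 2 = c2 at *
    obtain ⟨k0l, k0u⟩ := k0
    obtain ⟨k1l, k1u⟩ := k1
    obtain ⟨k2l, k2u⟩ := k2
    -- parity of the sum of the coefficients of any relation
    have fact : ∀ d0 d1 d2 : ℤ, d0 * a0 + d1 * a1 + d2 * a2 = 0 →
        d0 * b0 + d1 * b1 + d2 * b2 = 0 → (d0 + d1 + d2) % 2 = 0 := by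
      intro d0 d1 d2 h1 h2
      rcases Int.emod_two_eq_zero_or_one n with hn2 | hn2
      · rw [hn2] at p0 p1 p2
        obtain ⟨s0, hs0⟩ : ∃ s, a0 = 2 * s + 1 := ⟨a0 / 2, by omega⟩
        obtain ⟨s1, hs1⟩ : ∃ s, a1 = 2 * s + 1 := ⟨a1 / 2, by omega⟩
        obtain ⟨s2, hs2⟩ : ∃ s, a2 = 2 * s + 1 := ⟨a2 / 2, by omega⟩
        have : d0 + d1 + d2 = 2 * (-(d0 * s0 + d1 * s1 + d2 * s2)) := by
          rw [hs0, hs1, hs2] at h1
          linear_combination h1
        rw [this]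
        exact Int.mul_emod_right _ _
      · rw [hn2] at p0 p1 p2
        obtain ⟨s0, hs0⟩ : ∃ s, a0 + b0 = 2 * s + 1 := ⟨(a0 + b0) / 2, by omega⟩
        obtain ⟨s1, hs1⟩ : ∃ s, a1 + b1 = 2 * s + 1 := ⟨(a1 + b1) / 2, by omega⟩
        obtain ⟨s2, hs2⟩ : ∃ s, a2 + b2 = 2 * s + 1 := ⟨(a2 + b2) / 2, by omega⟩
        have : d0 + d1 + d2 = 2 * (-(d0 * s0 + d1 * s1 + d2 * s2)) := by
          linear_combination h1 + h2 - d0 * hs0 - d1 * hs1 - d2 * hs2
        rw [this]
        exact Int.mul_emod_right _ _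
    have f1 := fact c0 c1 c2 hx hy
    have f2 : c0 % 2 = 0 → c1 % 2 = 0 → c2 % 2 = 0 → (c0 / 2 + c1 / 2 + c2 / 2) % 2 = 0 := by
      intro e0 e1 e2
      have g0 : c0 = 2 * (c0 / 2) := by omega
      have g1 : c1 = 2 * (c1 / 2) := by omega
      have g2 : c2 = 2 * (c2 / 2) := by omega
      apply fact
      · have : 2 * (c0 / 2 * a0 + c1 / 2 * a1 + c2 / 2 * a2) = 0 := by
          linear_combination hx - a0 * g0 - a1 * g1 - a2 * g2
        linarith
      · have : 2 * (c0 / 2 * b0 + c1 / 2 * b1 + c2 / 2 * b2) = 0 := by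
          linear_combination hy - b0 * g0 - b1 * g1 - b2 * g2
        linarith
    have f3 : ¬ (c0 = c1 ∧ c1 = c2) := by
      rintro ⟨h1, h2⟩
      subst h1
      subst h2
      have e1 : c0 * (a0 + a1 + a2) = 0 := by linear_combination hx
      have e2 : c0 * (b0 + b1 + b2) = 0 := by linear_combination hy
      have e3 : a0 + a1 + a2 = 0 := by
        rcases mul_eq_zero.1 e1 with h | h
        · omega
        · exact h
      have e4 : b0 + b1 + b2 = 0 := by
        rcases mul_eq_zero.1 e2 with h | h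
        · omega
        · exact h
      have := fact 1 1 1 (by linarith) (by linarith)
      norm_num at this
    have g0 := dvd_three_of hx hy d0
    have g1 := dvd_three_of (c0 := c1) (c1 := c0) (c2 := c2) (a1 := a0) (a2 := a2) (b1 := b0)
      (b2 := b2) (by linarith) (by linarith) d1
    have g2 := dvd_three_of (c0 := c2) (c1 := c0) (c2 := c1) (a1 := a0) (a2 := a1) (b1 := b0)
      (b2 := b1) (by linarith) (by linarith) d2
    clear fact hx hy d0 d1 d2 o0 o1 o2 p0 p1 p2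
    interval_cases c0 <;> interval_cases c1 <;> interval_cases c2 <;> omega

end Pool.Agent.QuarticVectors
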